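import Pool.Agent.KDT.StmtsP

set_option autoImplicit false

/-! # KDT, block Z, row ELI (elimination by counting dimensions) -/

namespace Pool.Agent.KDT.H21

open Polynomial Pool.Agent.KDT.Z

section

variable {k : Type} [Field k]

/-- polynomials with `deg_0 < M`, `deg_1 < N` -/
noncomputable def Bx (k : Type) [Field k] (M N : ℕ) : Submodule k (MvPolynomial (Fin 2) k) :=
  MvPolynomial.restrictSupport k {d | d 0 < M ∧ d 1 < N}

lemma mem_Bx {M N : ℕ} {p : MvPolynomial (Fin 2) k} :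
    p ∈ Bx k M N ↔ ∀ d ∈ p.support, d 0 < M ∧ d 1 < N := by
  unfold Bx
  rw [MvPolynomial.mem_restrictSupport_iff]
  exact Iff.rfl

/-- the exponents -/
noncomputable def exE (M N : ℕ) :
    ({d | d 0 < M ∧ d 1 < N} : Set (Fin 2 →₀ ℕ)) ≃ Fin M × Fin N where
  toFun d := (⟨d.1 0, d.2.1⟩, ⟨d.1 1, d.2.2⟩)
  invFun x := ⟨Finsupp.equivFunOnFinite.symm ![(x.1 : ℕ), (x.2 : ℕ)], by
    refine ⟨?_, ?_⟩
    · simp
    · simp⟩
  left_inv d := by
    apply Subtype.ext
    ext i
    fin_cases i <;> simp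
  right_inv x := by
    ext <;> simp

noncomputable instance (M N : ℕ) :
    Fintype ({d | d 0 < M ∧ d 1 < N} : Set (Fin 2 →₀ ℕ)) :=
  Fintype.ofEquiv _ (exE M N).symm

instance finBx (M N : ℕ) : Module.Finite k (Bx k M N) :=
  Module.Finite.of_basis (MvPolynomial.basisRestrictSupport k _)

lemma finrank_Bx (M N : ℕ) : Module.finrank k (Bx k M N) = M * N := by
  unfold Bx
  rw [Module.finrank_eq_card_basis (MvPolynomial.basisRestrictSupport k {d | d 0 < M ∧ d 1 < N}),
    Fintype.card_congr (exE M N), Fintype.card_prod, Fintype.card_fin, Fintype.card_fin]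

lemma mem_Bx_iff {M N : ℕ} {p : MvPolynomial (Fin 2) k} (hp : p ≠ 0) :
    p ∈ Bx k M N ↔ MvPolynomial.degreeOf 0 p < M ∧ MvPolynomial.degreeOf 1 p < N := by
  rw [mem_Bx]
  obtain ⟨d0, hd0⟩ := (MvPolynomial.support_nonempty.2 hp)
  constructor
  · intro h
    have h0 := h d0 hd0
    exact ⟨(MvPolynomial.degreeOf_lt_iff (by omega)).2 fun d hd => (h d hd).1,
      (MvPolynomial.degreeOf_lt_iff (by omega)).2 fun d hd => (h d hd).2⟩
  · rintro ⟨h1, h2⟩ d hd
    exact ⟨(MvPolynomial.degreeOf_lt_iff (by omega)).1 h1 d hd,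
      (MvPolynomial.degreeOf_lt_iff (by omega)).1 h2 d hd⟩

lemma mul_Bx {M N : ℕ} {A F : MvPolynomial (Fin 2) k}
    (hA : A ∈ Bx k (M - MvPolynomial.degreeOf 0 F) (N - MvPolynomial.degreeOf 1 F)) :
    A * F ∈ Bx k M N := by
  by_cases hA0 : A = 0
  · rw [hA0, zero_mul]; exact Submodule.zero_mem _
  by_cases hF0 : F = 0
  · rw [hF0, mul_zero]; exact Submodule.zero_mem _
  rw [mem_Bx_iff hA0] at hA
  rw [mem_Bx_iff (mul_ne_zero hA0 hF0), MvPolynomial.degreeOf_mul_eq hA0 hF0,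
    MvPolynomial.degreeOf_mul_eq hA0 hF0]
  omega

lemma of_mul_Bx {M N : ℕ} {A F : MvPolynomial (Fin 2) k} (hF0 : F ≠ 0)
    (hA : A * F ∈ Bx k M N) :
    A ∈ Bx k (M - MvPolynomial.degreeOf 0 F) (N - MvPolynomial.degreeOf 1 F) := by
  by_cases hA0 : A = 0
  · rw [hA0]; exact Submodule.zero_mem _
  rw [mem_Bx_iff (mul_ne_zero hA0 hF0), MvPolynomial.degreeOf_mul_eq hA0 hF0,
    MvPolynomial.degreeOf_mul_eq hA0 hF0] at hA
  rw [mem_Bx_iff hA0]
  omega

lemma Xpow_Bx {M : ℕ} (j : Fin 2) (i : ℕ) (hi : i < M) :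
    (MvPolynomial.X j ^ i : MvPolynomial (Fin 2) k) ∈ Bx k M M := by
  rw [mem_Bx]
  intro d hd
  rw [MvPolynomial.support_X_pow, Finset.mem_singleton] at hd
  subst hd
  fin_cases j <;> simp <;> omega

lemma arith (a0 a1 b0 b1 K M : ℕ) (hK : K = a0 * b1 + b0 * a1)
    (hM : M = a0 + a1 + b0 + b1 + K + 1) :
    M * M + (M - b0 - a0) * (M - b1 - a1) < (K + 1) + ((M - a0) * (M - a1) +
      (M - b0) * (M - b1)) := by
  have e1 : M - b0 - a0 = a1 + b1 + K + 1 := by omega
  have e2 : M - b1 - a1 = a0 + b0 + K + 1 := by omega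
  have e3 : M - a0 = a1 + b0 + b1 + K + 1 := by omega
  have e4 : M - a1 = a0 + b0 + b1 + K + 1 := by omega
  have e5 : M - b0 = a0 + a1 + b1 + K + 1 := by omega
  have e6 : M - b1 = a0 + a1 + b0 + K + 1 := by omega
  rw [e1, e2, e3, e4, e5, e6, hM]
  have : (K : ℤ) = a0 * b1 + b0 * a1 := by exact_mod_cast hK
  zify
  nlinarith [this]

lemma elim (Φ G : MvPolynomial (Fin 2) k) (hI : Irreducible Φ) (hG : ¬ Φ ∣ G) (j : Fin 2) :
    ∃ (R : k[X]) (A B : MvPolynomial (Fin 2) k), R ≠ 0 ∧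
      R.natDegree ≤ MvPolynomial.degreeOf 0 Φ * MvPolynomial.degreeOf 1 G +
        MvPolynomial.degreeOf 0 G * MvPolynomial.degreeOf 1 Φ ∧
      Polynomial.aeval (MvPolynomial.X j : MvPolynomial (Fin 2) k) R = A * Φ + B * G := by
  classical
  have hΦ0 : Φ ≠ 0 := hI.ne_zero
  have hG0 : G ≠ 0 := fun h => hG (h ▸ dvd_zero _)
  obtain ⟨K, hK⟩ : ∃ K, K = MvPolynomial.degreeOf 0 Φ * MvPolynomial.degreeOf 1 G +
        MvPolynomial.degreeOf 0 G * MvPolynomial.degreeOf 1 Φ := ⟨_, rfl⟩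
  obtain ⟨M, hM⟩ : ∃ M, M = MvPolynomial.degreeOf 0 Φ + MvPolynomial.degreeOf 1 Φ +
    MvPolynomial.degreeOf 0 G + MvPolynomial.degreeOf 1 G + K + 1 := ⟨_, rfl⟩
  rw [← hK]
  let L0 : (Fin (K + 1) → k) →ₗ[k] MvPolynomial (Fin 2) k :=
    Fintype.linearCombination k (fun i : Fin (K + 1) =>
      (MvPolynomial.X j ^ (i : ℕ) : MvPolynomial (Fin 2) k))
  let L1 : Bx k (M - MvPolynomial.degreeOf 0 Φ) (M - MvPolynomial.degreeOf 1 Φ) →ₗ[k]
      MvPolynomial (Fin 2) k := LinearMap.mulRight k Φ ∘ₗ Submodule.subtype _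
  let L2 : Bx k (M - MvPolynomial.degreeOf 0 G) (M - MvPolynomial.degreeOf 1 G) →ₗ[k]
      MvPolynomial (Fin 2) k := LinearMap.mulRight k G ∘ₗ Submodule.subtype _
  let T := L0.coprod (L1.coprod L2)
  have hT : ∀ x, T x = (∑ i : Fin (K + 1), x.1 i • (MvPolynomial.X j ^ (i : ℕ))) +
      ((x.2.1 : MvPolynomial (Fin 2) k) * Φ + (x.2.2 : MvPolynomial (Fin 2) k) * G) := by
    intro x
    rfl
  by_cases hex : ∃ x, T x = 0 ∧ x.1 ≠ 0
  · obtain ⟨x, hx, hx1⟩ := hex
    refine ⟨∑ i : Fin (K + 1), Polynomial.C (x.1 i) * Polynomial.X ^ (i : ℕ),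
      -(x.2.1 : MvPolynomial (Fin 2) k), -(x.2.2 : MvPolynomial (Fin 2) k), ?_, ?_, ?_⟩
    · obtain ⟨i, hi⟩ := Function.ne_iff.1 hx1
      intro h0
      apply hi
      have := congrArg (fun p => Polynomial.coeff p (i : ℕ)) h0
      simpa [Polynomial.finsetSum_coeff, Polynomial.coeff_C_mul, Polynomial.coeff_X_pow,
        Fin.val_inj] using this
    · apply Polynomial.natDegree_sum_le_of_forall_le
      intro i _
      refine (Polynomial.natDegree_C_mul_X_pow_le _ _).trans ?_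
      omega
    · rw [hT] at hx
      have e : Polynomial.aeval (MvPolynomial.X j : MvPolynomial (Fin 2) k)
          (∑ i : Fin (K + 1), Polynomial.C (x.1 i) * Polynomial.X ^ (i : ℕ)) =
          ∑ i : Fin (K + 1), x.1 i • (MvPolynomial.X j ^ (i : ℕ)) := by
        rw [map_sum]
        refine Finset.sum_congr rfl fun i _ => ?_
        rw [map_mul, Polynomial.aeval_C, map_pow, Polynomial.aeval_X, Algebra.smul_def]
      rw [e]
      linear_combination hx
  · exfalso
    push Not at hex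
    have hker : ∀ x, T x = 0 → x.1 = 0 := hex
    have hrange : LinearMap.range T ≤ Bx k M M := by
      rintro _ ⟨x, rfl⟩
      rw [hT]
      refine Submodule.add_mem _ ?_ (Submodule.add_mem _ ?_ ?_)
      · refine Submodule.sum_mem _ fun i _ => Submodule.smul_mem _ _ (Xpow_Bx j _ ?_)
        have := i.2
        omega
      · exact mul_Bx x.2.1.2
      · exact mul_Bx x.2.2.2
    let π : LinearMap.ker T →ₗ[k] MvPolynomial (Fin 2) k :=
      (Submodule.subtype _ ∘ₗ LinearMap.snd k _ _ ∘ₗ LinearMap.snd k _ _) ∘ₗ Submodule.subtype _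
    have hπ : ∀ x, π x = (x.1.2.2 : MvPolynomial (Fin 2) k) := fun x => rfl
    have hinj : Function.Injective π := by
      intro x y hxy
      have hx0 : T x.1 = 0 := x.2
      have hy0 : T y.1 = 0 := y.2
      have h1 : x.1.1 = 0 := hker _ hx0
      have h1' : y.1.1 = 0 := hker _ hy0
      rw [hπ, hπ] at hxy
      rw [hT, h1, hxy] at hx0
      rw [hT, h1'] at hy0
      have h2 : ((x.1.2.1 : MvPolynomial (Fin 2) k) - y.1.2.1) * Φ = 0 := by
        linear_combination hx0 - hy0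
      have h3 : (x.1.2.1 : MvPolynomial (Fin 2) k) = y.1.2.1 :=
        sub_eq_zero.1 ((mul_eq_zero.1 h2).resolve_right hΦ0)
      apply Subtype.ext
      apply Prod.ext
      · rw [h1, h1']
      · apply Prod.ext
        · exact Subtype.ext h3
        · exact Subtype.ext hxy
    have hrπ : LinearMap.range π ≤
        (Bx k (M - MvPolynomial.degreeOf 0 G - MvPolynomial.degreeOf 0 Φ)
          (M - MvPolynomial.degreeOf 1 G - MvPolynomial.degreeOf 1 Φ)).map
          (LinearMap.mulRight k Φ) := by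
      rintro _ ⟨x, rfl⟩
      have hx0 : T x.1 = 0 := x.2
      have h1 : x.1.1 = 0 := hker _ hx0
      rw [hT, h1] at hx0
      have h2 : (x.1.2.1 : MvPolynomial (Fin 2) k) * Φ +
          (x.1.2.2 : MvPolynomial (Fin 2) k) * G = 0 := by simpa using hx0
      have h3 : Φ ∣ (x.1.2.2 : MvPolynomial (Fin 2) k) * G := by
        refine ⟨-(x.1.2.1 : MvPolynomial (Fin 2) k), ?_⟩
        linear_combination h2
      have h4 : Φ ∣ (x.1.2.2 : MvPolynomial (Fin 2) k) :=
        (hI.prime.dvd_or_dvd h3).resolve_right hG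
      obtain ⟨c, hc⟩ := h4
      refine ⟨c, ?_, ?_⟩
      · have h5 : c * Φ ∈ Bx k (M - MvPolynomial.degreeOf 0 G)
            (M - MvPolynomial.degreeOf 1 G) := by
          rw [mul_comm, ← hc]
          exact x.1.2.2.2
        exact of_mul_Bx hΦ0 h5
      · rw [hπ, hc]
        exact mul_comm _ _
    have f1 := LinearMap.finrank_range_add_finrank_ker T
    have f2 : Module.finrank k (LinearMap.range T) ≤ M * M := by
      rw [← finrank_Bx (k := k) M M]
      exact Submodule.finrank_mono hrange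
    have f3 : Module.finrank k (LinearMap.ker T) ≤
        (M - MvPolynomial.degreeOf 0 G - MvPolynomial.degreeOf 0 Φ) *
          (M - MvPolynomial.degreeOf 1 G - MvPolynomial.degreeOf 1 Φ) := by
      rw [← finrank_Bx (k := k), ← LinearMap.finrank_range_of_inj hinj]
      exact (Submodule.finrank_mono hrπ).trans (Submodule.finrank_map_le _ _)
    rw [Module.finrank_prod, Module.finrank_prod, Module.finrank_fin_fun, finrank_Bx,
      finrank_Bx] at f1
    have f4 := arith _ _ _ _ K M hK hM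
    omega

end

theorem zeli : EliStatement := by
  intro n k _ Φ G hΦn hGn hI hG
  have d0 := (MvPolynomial.degreeOf_le_totalDegree Φ 0).trans hΦn
  have d1 := (MvPolynomial.degreeOf_le_totalDegree Φ 1).trans hΦn
  have d2 := (MvPolynomial.degreeOf_le_totalDegree G 0).trans hGn
  have d3 := (MvPolynomial.degreeOf_le_totalDegree G 1).trans hGn
  have hb : MvPolynomial.degreeOf 0 Φ * MvPolynomial.degreeOf 1 G +
        MvPolynomial.degreeOf 0 G * MvPolynomial.degreeOf 1 Φ ≤ 2 * n ^ 2 := by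
    have := Nat.mul_le_mul d0 d3
    have := Nat.mul_le_mul d2 d1
    nlinarith
  obtain ⟨R0, A0, B0, h0, hd0, he0⟩ := elim Φ G hI hG 0
  obtain ⟨R1, A1, B1, h1, hd1, he1⟩ := elim Φ G hI hG 1
  refine ⟨R0, R1, h0, h1, hd0.trans hb, hd1.trans hb, ?_⟩
  intro U _ _ s p hs hg
  unfold Zr at hs hg
  have key : ∀ (j : Fin 2) (R : k[X]) (A B : MvPolynomial (Fin 2) k),
      Polynomial.aeval (MvPolynomial.X j : MvPolynomial (Fin 2) k) R = A * Φ + B * G →
      Polynomial.aeval ((![s, p] : Fin 2 → U) j) R = 0 := by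
    intro j R A B h
    have h' := congrArg (MvPolynomial.aeval (![s, p] : Fin 2 → U)) h
    rw [map_add, map_mul, map_mul, hs, hg, mul_zero, mul_zero, add_zero,
      ← Polynomial.aeval_algHom_apply, MvPolynomial.aeval_X] at h'
    exact h'
  exact ⟨key 0 R0 A0 B0 he0, key 1 R1 A1 B1 he1⟩

end Pool.Agent.KDT.H21
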