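import Pool.Agent.KDT.StmtsJ

set_option autoImplicit false

/-! # KDT, block Z, row JGB (the Mumford vectors) -/

namespace Pool.Agent.KDT.H21

open Polynomial H58Q Pool.Agent.SZT Pool.Agent.KDT.Z

section

variable {F : Type} [Field F] (f : F[X]) [Fact (Odd f.natDegree)] [IsDedekindDomain (Q F f)]

omit [Fact (Odd f.natDegree)] [IsDedekindDomain (Q F f)] in
lemma mi_ne (A B : F[X]) : MI f A B ≠ ⊥ := by
  intro h
  have h1 : (⟨-B, 1⟩ : Q F f) ∈ MI f A B := Ideal.subset_span (by simp)
  rw [h, Ideal.mem_bot] at h1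
  have h2 := congrArg QuadraticAlgebra.im h1
  exact one_ne_zero h2

lemma clI_of (I : Ideal (Q F f)) (h : I ∈ nonZeroDivisors (Ideal (Q F f))) :
    clI f I = Additive.ofMul (ClassGroup.mk0 ⟨I, h⟩) := by
  unfold clI
  rw [dif_pos h]

lemma clI_mul (I J : Ideal (Q F f)) (hI : I ≠ ⊥) (hJ : J ≠ ⊥) :
    clI f (I * J) = clI f I + clI f J := by
  have h1 : I ∈ nonZeroDivisors (Ideal (Q F f)) := mem_nonZeroDivisors_of_ne_zero hI
  have h2 : J ∈ nonZeroDivisors (Ideal (Q F f)) := mem_nonZeroDivisors_of_ne_zero hJ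
  rw [clI_of f I h1, clI_of f J h2, clI_of f (I * J) (mul_mem h1 h2), ← ofMul_mul, ← map_mul]
  rfl

lemma clI_eq (I J : Ideal (Q F f)) (hI : I ≠ ⊥) (hJ : J ≠ ⊥) (h : clI f I = clI f J) :
    SameCl I J := by
  have h1 : I ∈ nonZeroDivisors (Ideal (Q F f)) := mem_nonZeroDivisors_of_ne_zero hI
  have h2 : J ∈ nonZeroDivisors (Ideal (Q F f)) := mem_nonZeroDivisors_of_ne_zero hJ
  rw [clI_of f I h1, clI_of f J h2] at h
  have h3 := Additive.ofMul.injective h
  rw [ClassGroup.mk0_eq_mk0_iff] at h3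
  obtain ⟨x, y, hx, hy, e⟩ := h3
  exact ⟨x, y, hx, hy, e⟩

lemma clI_prin (x : Q F f) (hx : x ≠ 0) : clI f (Ideal.span {x}) = 0 := by
  have h0 : (Ideal.span {x} : Ideal (Q F f)) ≠ ⊥ := by
    rwa [Ne, Ideal.span_singleton_eq_bot]
  have h1 : (Ideal.span {x} : Ideal (Q F f)) ∈ nonZeroDivisors (Ideal (Q F f)) :=
    mem_nonZeroDivisors_of_ne_zero h0
  rw [clI_of f _ h1, (ClassGroup.mk0_eq_one_iff h1).2 ⟨x, rfl⟩]
  rfl

omit [Fact (Odd f.natDegree)] [IsDedekindDomain (Q F f)] in
lemma mi_one (B : F[X]) : MI f 1 B = Ideal.span {(1 : Q F f)} := by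
  rw [Ideal.span_singleton_one, Ideal.eq_top_iff_one]
  exact Ideal.subset_span (by
    left
    rfl)

lemma clI_one (B : F[X]) : clI f (MI f 1 B) = 0 := by
  rw [mi_one, clI_prin f _ one_ne_zero]

end

section

variable {F : Type} [Field F]

lemma pA_eq (q : Fin 4 → F) : pA q = X ^ 2 + (C (-q 0) * X + C (q 1)) := by
  unfold pA
  rw [C_neg]
  ring

lemma pA_deg (q : Fin 4 → F) : (C (-q 0) * X + C (q 1) : F[X]).degree < 2 :=
  lt_of_le_of_lt (degree_linear_le) (by norm_num)

lemma pA_monic (q : Fin 4 → F) : (pA q).Monic := by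
  rw [pA_eq]
  exact monic_X_pow_add (n := 2) (by simpa using pA_deg q)

lemma pA_natDegree (q : Fin 4 → F) : (pA q).natDegree = 2 := by
  rw [pA_eq]
  have h : (X ^ 2 + (C (-q 0) * X + C (q 1)) : F[X]) = C 1 * X ^ 2 + C (-q 0) * X + C (q 1) := by
    rw [C_1]
    ring
  rw [h]
  exact natDegree_quadratic one_ne_zero

lemma pA_c0 (q : Fin 4 → F) : (pA q).coeff 0 = q 1 := by
  rw [pA_eq]
  simp

lemma pA_c1 (q : Fin 4 → F) : (pA q).coeff 1 = -q 0 := by
  rw [pA_eq]
  simp [coeff_X_pow, coeff_C]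

lemma pB_c0 (q : Fin 4 → F) : (pB q).coeff 0 = q 2 := by
  unfold pB
  simp

lemma pB_c1 (q : Fin 4 → F) : (pB q).coeff 1 = q 3 := by
  unfold pB
  simp [coeff_C]

lemma vec_ext (q t : Fin 4 → F) (h1 : pA q = pA t) (h2 : pB q = pB t) : q = t := by
  have e0 : q 0 = t 0 := by
    have := pA_c1 q
    rw [h1, pA_c1] at this
    exact (neg_injective this).symm
  have e1 : q 1 = t 1 := by rw [← pA_c0 q, h1, pA_c0]
  have e2 : q 2 = t 2 := by rw [← pB_c0 q, h2, pB_c0]
  have e3 : q 3 = t 3 := by rw [← pB_c1 q, h2, pB_c1]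
  ext i
  fin_cases i
  · exact e0
  · exact e1
  · exact e2
  · exact e3

lemma mum_of (f : F[X]) (q : Fin 4 → F) (h : On f q) : Mum f (pA q) (pB q) := by
  refine ⟨pA_monic q, ?_, h⟩
  have h1 : (pA q).degree = 2 := by
    rw [degree_eq_natDegree (pA_monic q).ne_zero, pA_natDegree]
    rfl
  rw [h1]
  exact lt_of_le_of_lt (degree_linear_le) (by norm_num)

lemma mum_pt (f : F[X]) (z : Pt f) : Mum f (X - C z.a) (C z.b) := by
  refine ⟨monic_X_sub_C _, ?_, ?_⟩
  · rw [degree_X_sub_C]
    exact lt_of_le_of_lt degree_C_le (by norm_num)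
  · rw [dvd_iff_isRoot, IsRoot.def, eval_sub, eval_pow, eval_C, z.on, sub_self]

lemma mum_one (f : F[X]) : Mum f 1 0 := by
  refine ⟨monic_one, ?_, one_dvd _⟩
  rw [degree_zero, degree_one]
  exact WithBot.bot_lt_coe 0

end

theorem zjgb (h1 : MiiStatement) (h2 : UnqStatement) (h3 : RexStatement) : JgbStatement := by
  intro F _ _ f _ _ hm h5 hsf
  have two : (2 : F) ≠ 0 := two_ne_zero
  refine ⟨?_, ?_, ?_, ?_, ?_⟩
  · intro q t hq ht h
    have hs := clI_eq f _ _ (mi_ne f _ _) (mi_ne f _ _) h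
    obtain ⟨e1, e2⟩ := h2 F f _ _ _ _ two hsf h5 (mum_of f q hq) (mum_of f t ht)
      (pA_natDegree q).le (pA_natDegree t).le hs
    exact vec_ext q t e1 e2
  · intro q hq
    have eA : pA (ngv q) = pA q := rfl
    have eB : pB (ngv q) = - pB q := by
      unfold pB ngv
      simp only [Matrix.cons_val]
      rw [C_neg, C_neg]
      ring
    refine ⟨?_, ?_⟩
    · unfold On
      rw [eA, eB, neg_sq]
      exact hq
    · unfold clC
      rw [eA, eB]
      have h := congrArg (clI f) (h1 F f (pA q) (pB q) two hsf hq)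
      rw [clI_mul f _ _ (mi_ne f _ _) (mi_ne f _ _), clI_prin] at h
      · exact (neg_eq_of_add_eq_zero_right h).symm
      · intro h0
        have := congrArg QuadraticAlgebra.re h0
        exact (pA_monic q).ne_zero this
  · intro q hq h
    have h' : clI f (MI f (pA q) (pB q)) = clI f (MI f 1 0) := by
      rw [clI_one]
      exact h
    have hs := clI_eq f _ _ (mi_ne f _ _) (mi_ne f _ _) h'
    obtain ⟨e1, -⟩ := h2 F f _ _ _ _ two hsf h5 (mum_of f q hq) (mum_one f)
      (pA_natDegree q).le (by simp) hs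
    have := pA_natDegree q
    rw [e1, natDegree_one] at this
    omega
  · intro q z hq h
    have hs := clI_eq f _ _ (mi_ne f _ _) (mi_ne f _ _) h
    obtain ⟨e1, -⟩ := h2 F f _ _ _ _ two hsf h5 (mum_of f q hq) (mum_pt f z)
      (pA_natDegree q).le (by simp) hs
    have := pA_natDegree q
    rw [e1, natDegree_X_sub_C] at this
    omega
  · intro c
    obtain ⟨A, B, h, hM, hd, hc⟩ := h3 F f two hsf h5 (Additive.toMul c)
    have hc' : c = clI f (MI f A B) := by
      rw [clI_of f _ h, hc]
      rfl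
    have hA0 : A ≠ 0 := hM.monic.ne_zero
    have hdeg := hM.deg
    rw [degree_eq_natDegree hA0] at hdeg
    rcases Nat.lt_or_ge A.natDegree 1 with h0 | h0
    · left
      have hA1 : A = 1 := eq_one_of_monic_natDegree_zero hM.monic (by omega)
      rw [hc', hA1, clI_one]
    rcases Nat.lt_or_ge A.natDegree 2 with h01 | h01
    · right; left
      have hn : A.natDegree = 1 := by omega
      have hA : A = X - C (-A.coeff 0) := by
        have := hM.monic.eq_X_add_C hn
        rw [C_neg, sub_neg_eq_add]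
        exact this
      have hB : B = C (B.coeff 0) := by
        apply eq_C_of_degree_le_zero
        rw [hn] at hdeg
        exact Nat.WithBot.lt_one_iff_le_zero.1 hdeg
      have hz : (B.coeff 0) ^ 2 = f.eval (-A.coeff 0) := by
        have := hM.dvd
        rw [hA, hB, dvd_iff_isRoot, IsRoot.def, eval_sub, eval_pow, eval_C, sub_eq_zero] at this
        exact this
      refine ⟨⟨-A.coeff 0, B.coeff 0, hz⟩, ?_⟩
      rw [hc']
      unfold thC
      dsimp only
      rw [← hA, ← hB]
    · right; right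
      have hn : A.natDegree = 2 := by omega
      rw [hn] at hdeg
      have hB : B = C (B.coeff 1) * X + C (B.coeff 0) := by
        apply eq_X_add_C_of_degree_le_one
        by_cases hB0 : B = 0
        · rw [hB0, degree_zero]
          exact bot_le
        · have := (natDegree_lt_iff_degree_lt hB0).2 hdeg
          have h1 : B.natDegree ≤ 1 := by omega
          exact degree_le_of_natDegree_le h1
      have hA : A = X ^ 2 + (C (A.coeff 1) * X + C (A.coeff 0)) := by
        have h2c : A.coeff 2 = 1 := by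
          have := hM.monic.coeff_natDegree
          rwa [hn] at this
        ext i
        rcases Nat.lt_or_ge i 3 with hi | hi
        · interval_cases i
          · simp
          · simp [coeff_X_pow, coeff_C]
          · simp [coeff_X_pow, coeff_C, coeff_X, h2c]
        · rw [coeff_eq_zero_of_natDegree_lt (by omega)]
          have e1 : i ≠ 2 := by omega
          have e2 : i ≠ 1 := by omega
          have e3 : i ≠ 0 := by omega
          simp [coeff_X_pow, coeff_C, coeff_X, e1, e2, e3, e2.symm]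
      obtain ⟨q, hq⟩ : ∃ q : Fin 4 → F, q = ![-A.coeff 1, A.coeff 0, B.coeff 0, B.coeff 1] :=
        ⟨_, rfl⟩
      have hAq : pA q = A := by
        rw [pA_eq, hq]
        simp only [Matrix.cons_val, neg_neg]
        exact hA.symm
      have hBq : pB q = B := by
        unfold pB
        rw [hq]
        simp only [Matrix.cons_val]
        exact hB.symm
      refine ⟨q, ?_, ?_⟩
      · unfold On
        rw [hAq, hBq]
        exact hM.dvd
      · unfold clC
        rw [hAq, hBq, hc']

end Pool.Agent.KDT.H21
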